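import Pool.Agent.U496.CM.Drive
import Pool.Agent.U496.PD.Lio

/-!
# Counter machines and the Liouville function
-/

set_option autoImplicit false

namespace Pool.Agent.U496.CM

open Finset
open Pool.Agent.H376R2.MR (lam)
open Pool.Agent.U496.PD (Rep code few)

variable {Q : Type} {k : ℕ}

open Classical in
/-- the number of the `n ≤ N` with `φ(a(n)) ≠ f(n)` -/
noncomputable def wrong (f : ℕ → ℤ) (a : ℕ → ℤ) (φ : ℤ → ℤ) (N : ℕ) : ℕ :=
  ((range N).filter fun n => φ (a (n + 1)) ≠ f (n + 1)).card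

lemma wrong_add (f : ℕ → ℤ) (a : ℕ → ℤ) (φ : ℤ → ℤ) (N R : ℕ) :
    wrong f a φ (N + R) ≤ wrong f a φ N + R := by
  classical
  unfold wrong
  rw [range_add_eq_union, filter_union]
  refine (card_union_le _ _).trans (Nat.add_le_add_left ?_ _)
  refine (card_filter_le _ _).trans ?_
  rw [card_map, card_range]

open Classical in
/-- windows with a wrong value -/
lemma near_wrong (f : ℕ → ℤ) (a : ℕ → ℤ) (φ : ℤ → ℤ) (N R : ℕ) :
    ((range N).filter fun n => ∃ j < R, φ (a (n + j + 1)) ≠ f (n + j + 1)).card ≤ R * (wrong f a φ N + R) := by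
  have h1 : ((range N).filter fun n => ∃ j < R, φ (a (n + j + 1)) ≠ f (n + j + 1)) ⊆
      ((range R) ×ˢ ((range (N + R)).filter fun n => φ (a (n + 1)) ≠ f (n + 1))).image (fun p => p.2 - p.1) := by
    intro n hn
    rw [mem_filter, mem_range] at hn
    obtain ⟨hn, j, hj, h⟩ := hn
    rw [mem_image]
    refine ⟨(j, n + j), ?_, by simp⟩
    rw [mem_product, mem_range, mem_filter, mem_range]
    exact ⟨hj, by omega, h⟩
  refine (card_le_card h1).trans (card_image_le.trans ?_)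
  rw [card_product, card_range]
  exact Nat.mul_le_mul_left _ (wrong_add f a φ N R)

/-- a machine with counters makes a positive proportion of errors on the Liouville function -/
theorem liouville [Finite Q] (M : CounterMachine Q k) : ∃ K : ℝ, ∀ (a : ℕ → ℤ) (φ : ℤ → ℤ) (x : Q × (Fin k → ℕ)) (N : ℕ),
    (N : ℝ) ≤ K * (errors M a x N + wrong lam a φ N + 1) := by
  classical
  -- the lengths
  have hfew : ∀ P : ℕ, ∃ H : ℕ, ∀ N : ℕ, H ≤ N →
      (((range N).filter (fun n => Rep (code lam) (P * H) P n)).card : ℝ) ≤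
        P ^ 2 + (1 / 4) * (1 / 2) ^ (P + 1) * N := by
    intro P
    obtain ⟨H, hH⟩ := few P ((1 / 4) * (1 / 2) ^ (P + 1) / (P ^ 2 + 1)) (by positivity)
    refine ⟨H, fun N hN => (hH N hN).trans ?_⟩
    have h1 : (P : ℝ) ^ 2 * ((1 / 4) * (1 / 2) ^ (P + 1) / (P ^ 2 + 1) * N) ≤ (1 / 4) * (1 / 2) ^ (P + 1) * N := by
      have h2 : (P : ℝ) ^ 2 * ((1 / 4) * (1 / 2) ^ (P + 1) / (P ^ 2 + 1) * N) =
          ((P : ℝ) ^ 2 / (P ^ 2 + 1)) * ((1 / 4) * (1 / 2) ^ (P + 1) * N) := by ring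
      rw [h2]
      have h3 : (P : ℝ) ^ 2 / (P ^ 2 + 1) ≤ 1 := by
        rw [div_le_one (by positivity)]
        linarith
      exact mul_le_of_le_one_left (by positivity) h3
    nlinarith
  choose H₀ hH₀ using hfew
  obtain ⟨A, K, hA, hK⟩ := drive M (fun P => P * H₀ P) 4 (by norm_num)
  set R := A.sup fun P => P * H₀ P + P with hR
  set Z := A.sup fun P => H₀ P with hZ
  obtain ⟨Y, hY⟩ : ∃ Y : ℝ, Y = ∑ P ∈ A, (P : ℝ) ^ 2 := ⟨_, rfl⟩
  have hY0 : 0 ≤ Y := by
    rw [hY]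
    exact sum_nonneg fun _ _ => by positivity
  refine ⟨2 * (K + R * (R + 1) + Y) + Z, fun a φ x N => ?_⟩
  obtain ⟨E, hE⟩ : ∃ E, E = errors M a x N := ⟨_, rfl⟩
  obtain ⟨G, hG⟩ : ∃ G, G = wrong lam a φ N := ⟨_, rfl⟩
  rw [← hE, ← hG]
  have hE0 : (0 : ℝ) ≤ E := Nat.cast_nonneg _
  have hG0 : (0 : ℝ) ≤ G := Nat.cast_nonneg _
  have hZ0 : (0 : ℝ) ≤ Z := Nat.cast_nonneg _
  have hR0 : (0 : ℝ) ≤ R := Nat.cast_nonneg _
  have hK0 : (0 : ℝ) ≤ K := Nat.cast_nonneg _
  rcases lt_or_ge N Z with hN | hN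
  · have h1 : (N : ℝ) ≤ Z := by exact_mod_cast hN.le
    have h2 : 0 ≤ 2 * ((K : ℝ) + R * (R + 1) + Y) := by positivity
    nlinarith [mul_nonneg h2 hE0, mul_nonneg h2 hG0, mul_nonneg hZ0 hE0, mul_nonneg hZ0 hG0]
  -- the cover
  have hcover : range N ⊆ ((range N).filter fun n => ∀ P ∈ A, ¬ Rp (fun n => a (n + 1)) (P * H₀ P) P n) ∪
      (((range N).filter fun n => ∃ j < R, φ (a (n + j + 1)) ≠ lam (n + j + 1)) ∪
        A.biUnion fun P => (range N).filter (fun n => Rep (code lam) (P * H₀ P) P n)) := by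
    intro n hn
    rw [mem_union, mem_union, mem_filter, mem_filter, mem_biUnion]
    by_cases h1 : ∀ P ∈ A, ¬ Rp (fun n => a (n + 1)) (P * H₀ P) P n
    · exact Or.inl ⟨hn, h1⟩
    · right
      by_cases h2 : ∃ j < R, φ (a (n + j + 1)) ≠ lam (n + j + 1)
      · exact Or.inl ⟨hn, h2⟩
      · right
        push Not at h1 h2
        obtain ⟨P, hP, ρ, h3, h4, h5⟩ := h1
        refine ⟨P, hP, mem_filter.2 ⟨hn, ρ, h3, h4, fun i hi => ?_⟩⟩
        have h6 : P * H₀ P + P ≤ R := le_sup (f := fun P => P * H₀ P + P) hP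
        have h7 := h5 i hi
        have h8 := h2 i (by omega)
        have h9 := h2 (i + ρ) (by omega)
        have h10 : lam (n + i + ρ + 1) = lam (n + i + 1) := by
          rw [← h8, show n + i + ρ + 1 = n + (i + ρ) + 1 by ring, ← h9]
          simp only at h7
          rw [show n + (i + ρ) + 1 = n + i + ρ + 1 by ring, h7]
        unfold code
        rw [h10]
  have h1 := (card_le_card hcover).trans ((card_union_le _ _).trans (Nat.add_le_add_left ((card_union_le _ _).trans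
    (Nat.add_le_add_left card_biUnion_le _)) _))
  rw [card_range] at h1
  have h2 : ((range N).filter fun n => ∀ P ∈ A, ¬ Rp (fun n => a (n + 1)) (P * H₀ P) P n).card =
      bad (fun n => a (n + 1)) (fun P => P * H₀ P) A N := by
    unfold bad
    rw [Nat.count_eq_card_filter_range]
  rw [h2] at h1
  have h3 := hK a x N
  have h4 := near_wrong lam a φ N R
  have h5 : ((∑ P ∈ A, ((range N).filter (fun n => Rep (code lam) (P * H₀ P) P n)).card : ℕ) : ℝ) ≤ Y + (1 / 4) * N := by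
    push_cast
    refine (sum_le_sum fun P hP => hH₀ P N ((le_sup (f := fun P => H₀ P) hP).trans hN)).trans ?_
    rw [sum_add_distrib, ← hY, ← sum_mul, ← mul_sum]
    have h6 : ∑ P ∈ A, (1 / 2 : ℝ) ^ (P + 1) ≤ 1 := by
      have h7 : ∑ P ∈ A, (1 / 2 : ℝ) ^ (P + 1) = (1 / 2) * ∑ P ∈ A, (1 / 2 : ℝ) ^ P := by
        rw [mul_sum]
        exact sum_congr rfl fun P _ => by rw [pow_succ]; ring
      have h8 : ∑ P ∈ A, (1 / 2 : ℝ) ^ P ≤ 2 := by
        have h9 := (summable_geometric_two).sum_le_tsum A (fun _ _ => by positivity)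
        rwa [tsum_geometric_two] at h9
      rw [h7]
      linarith
    have h7 : 1 / 4 * (∑ P ∈ A, (1 / 2 : ℝ) ^ (P + 1)) * N ≤ 1 / 4 * N := by
      refine mul_le_mul_of_nonneg_right ?_ (Nat.cast_nonneg _)
      linarith
    linarith
  rw [← hE] at h3
  rw [← hG] at h4
  have h1' : (N : ℝ) ≤ (bad (fun n => a (n + 1)) (fun P => P * H₀ P) A N : ℝ) +
      (R * (G + R) + (Y + (1 / 4) * N)) := by
    have h6 : (N : ℝ) ≤ (bad (fun n => a (n + 1)) (fun P => P * H₀ P) A N : ℝ) +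
        ((((range N).filter fun n => ∃ j < R, φ (a (n + j + 1)) ≠ lam (n + j + 1)).card : ℝ) +
          ((∑ P ∈ A, ((range N).filter (fun n => Rep (code lam) (P * H₀ P) P n)).card : ℕ) : ℝ)) := by
      exact_mod_cast h1
    have h7 : (((range N).filter fun n => ∃ j < R, φ (a (n + j + 1)) ≠ lam (n + j + 1)).card : ℝ) ≤
        R * (G + R) := by exact_mod_cast h4
    linarith
  have h3' : 4 * (bad (fun n => a (n + 1)) (fun P => P * H₀ P) A N : ℝ) ≤ N + K * (E + 1) := by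
    exact_mod_cast h3
  -- 3 N / 4 ≤ (N + K (E + 1)) / 4 + R (G + R) + Y
  have h8 : (N : ℝ) ≤ 2 * (K * (E + 1) + R * (G + R) + Y) := by
    have h9 : 0 ≤ (K : ℝ) * (E + 1) := by positivity
    linarith
  refine h8.trans ?_
  nlinarith [mul_nonneg hK0 hG0, mul_nonneg hR0 hE0, mul_nonneg hR0 hR0, mul_nonneg hY0 hE0, mul_nonneg hY0 hG0,
    mul_nonneg hZ0 hE0, mul_nonneg hZ0 hG0, mul_nonneg (mul_nonneg hR0 hR0) hE0, mul_nonneg (mul_nonneg hR0 hR0) hG0]

end Pool.Agent.U496.CM
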